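import Mathlib

set_option autoImplicit false

open Filter Topology

namespace Pool.Agent.H22.Fb85c6a

/-- The Hamming graph `H(d, n)`: two `d`-tuples are adjacent when they differ in exactly one
coordinate. -/
def hammingGraph (d n : ℕ) : SimpleGraph (Fin d → Fin n) where
  Adj x y := hammingDist x y = 1
  symm := ⟨fun x y h => by rwa [hammingDist_comm]⟩
  loopless := ⟨fun x h => by simp at h⟩

/-- A player's trajectory: in each round he stays put or moves to a neighbour. -/
def IsWalk {V : Type} (G : SimpleGraph V) (r : ℕ → V) : Prop :=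
  ∀ t, r (t + 1) = r t ∨ G.Adj (r t) (r (t + 1))

/-- `p t j` is the position of cop `j` after the `t`-th move of the cops, `r t` the position of the
robber after his `t`-th move (`t = 0`: starting positions). The robber standing at `r t` is seen if
some cop is at distance at most `ℓ` from him before or after the `(t + 1)`-st move of the cops. -/
def SeenAt {V : Type} (G : SimpleGraph V) (ℓ : ℕ) {c : ℕ} (p : ℕ → Fin c → V) (r : ℕ → V)
    (t : ℕ) : Prop :=
  ∃ j : Fin c, G.dist (p t j) (r t) ≤ ℓ ∨ G.dist (p (t + 1) j) (r t) ≤ ℓ

/-- `c` cops can guarantee to see the robber in the `ℓ`-visibility game on `G`: they have a play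
(they get no information before they see him) such that every trajectory of the robber is seen within
some fixed number of rounds. -/
def CopsCanSee {V : Type} (G : SimpleGraph V) (ℓ c : ℕ) : Prop :=
  ∃ p : ℕ → Fin c → V, (∀ j, IsWalk G (fun t => p t j)) ∧
    ∃ T : ℕ, ∀ r : ℕ → V, IsWalk G r → ∃ t ≤ T, SeenAt G ℓ p r t

/-- The number `c'_ℓ(G)`. -/
noncomputable def searchNumber {V : Type} (G : SimpleGraph V) (ℓ : ℕ) : ℕ :=
  sInf {c : ℕ | CopsCanSee G ℓ c}

end Pool.Agent.H22.Fb85c6a
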