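import Mathlib
import Pool.Agent.H22.Fb85c6a.Defs

set_option autoImplicit false

open Filter Topology

namespace Pool.Agent.H22.Fb85c6a

/-! ### The distance in Hamming graphs -/

lemma exists_walk (d n : ℕ) : ∀ (k : ℕ) (x y : Fin d → Fin n), hammingDist x y = k →
    ∃ w : (hammingGraph d n).Walk x y, w.length = k := by
  intro k
  induction k with
  | zero =>
    intro x y h
    have : x = y := hammingDist_eq_zero.mp h
    subst this
    exact ⟨SimpleGraph.Walk.nil, rfl⟩
  | succ k ih =>
    intro x y h
    obtain ⟨i, hi⟩ : ∃ i, x i ≠ y i := by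
      by_contra hcon
      push Not at hcon
      have : x = y := funext hcon
      rw [this] at h
      simp at h
    let z : Fin d → Fin n := Function.update x i (y i)
    have hxz : hammingDist x z = 1 := by
      unfold hammingDist
      rw [Finset.card_eq_one]
      refine ⟨i, ?_⟩
      ext j
      simp only [Finset.mem_filter, Finset.mem_univ, true_and, Finset.mem_singleton]
      constructor
      · intro hj
        by_contra hji
        apply hj
        simp [z, Function.update_of_ne hji]
      · rintro rfl
        simpa [z] using hi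
    have hzy : hammingDist z y = k := by
      unfold hammingDist at h ⊢
      have hset : (Finset.univ.filter (fun j => z j ≠ y j)) =
          (Finset.univ.filter (fun j => x j ≠ y j)).erase i := by
        ext j
        simp only [Finset.mem_filter, Finset.mem_univ, true_and, Finset.mem_erase]
        constructor
        · intro hj
          have hji : j ≠ i := by
            rintro rfl
            simp [z] at hj
          exact ⟨hji, by simpa [z, Function.update_of_ne hji] using hj⟩
        · rintro ⟨hji, hj⟩
          simpa [z, Function.update_of_ne hji] using hj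
      rw [hset, Finset.card_erase_of_mem (by simpa using hi), h]
      rfl
    obtain ⟨w, hw⟩ := ih z y hzy
    exact ⟨SimpleGraph.Walk.cons (show (hammingGraph d n).Adj x z from hxz) w, by simp [hw]⟩

lemma hammingDist_le_length {d n : ℕ} {x y : Fin d → Fin n} (w : (hammingGraph d n).Walk x y) :
    hammingDist x y ≤ w.length := by
  induction w with
  | nil => simp
  | @cons u v w h q ih =>
    have h1 : hammingDist u v = 1 := h
    have := hammingDist_triangle u v w
    simp only [SimpleGraph.Walk.length_cons]
    omega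

lemma dist_eq {d n : ℕ} (x y : Fin d → Fin n) : (hammingGraph d n).dist x y = hammingDist x y := by
  obtain ⟨w, hw⟩ := exists_walk d n _ x y rfl
  refine le_antisymm (hw ▸ SimpleGraph.dist_le w) ?_
  obtain ⟨w', hw'⟩ := w.reachable.exists_walk_length_eq_dist
  rw [← hw']
  exact hammingDist_le_length w'

lemma dist_le_iff {d n : ℕ} (hd : 1 ≤ d) (x y : Fin d → Fin n) :
    (hammingGraph d n).dist x y ≤ d - 1 ↔ ∃ i, x i = y i := by
  rw [dist_eq]
  constructor
  · intro h
    by_contra hcon
    push Not at hcon
    have : hammingDist x y = d := by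
      unfold hammingDist
      rw [Finset.filter_true_of_mem (fun i _ => hcon i)]
      simp
    omega
  · rintro ⟨i, hi⟩
    have : hammingDist x y < d := by
      unfold hammingDist
      calc _ < (Finset.univ : Finset (Fin d)).card := by
            apply Finset.card_lt_card
            rw [Finset.ssubset_univ_iff]
            intro h
            have : i ∈ Finset.univ.filter (fun j => x j ≠ y j) := by
              rw [h]
              exact Finset.mem_univ i
            simp [hi] at this
        _ = d := by simp
    omega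

/-- Two consecutive positions of a walk in `H(d, n)` differ in at most one coordinate. -/
lemma isWalk_iff {d n : ℕ} (r : ℕ → Fin d → Fin n) :
    IsWalk (hammingGraph d n) r ↔ ∀ t, hammingDist (r t) (r (t + 1)) ≤ 1 := by
  unfold IsWalk
  refine forall_congr' (fun t => ?_)
  constructor
  · rintro (h | h)
    · simp [h]
    · exact le_of_eq h
  · intro h
    rcases Nat.lt_or_ge (hammingDist (r t) (r (t + 1))) 1 with h1 | h1
    · left
      have : hammingDist (r t) (r (t + 1)) = 0 := by omega
      exact (hammingDist_eq_zero.mp this).symm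
    · right
      exact le_antisymm h h1



/-- Hall's condition for unit jobs with interval windows. -/
lemma hall_interval {J : Type} [DecidableEq J] (a b : J → ℕ) (hab : ∀ j, a j ≤ b j)
    (h : ∀ (s t : ℕ) (S : Finset J), s ≤ t → (∀ j ∈ S, s ≤ a j ∧ b j ≤ t) → S.card ≤ t + 1 - s) :
    ∃ f : J → ℕ, Function.Injective f ∧ ∀ j, a j ≤ f j ∧ f j ≤ b j := by
  have hall : ∀ S : Finset J, S.card ≤ (S.biUnion (fun j => Finset.Icc (a j) (b j))).card := by
    intro S
    induction' hk : S.card using Nat.strong_induction_on with k ih generalizing S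
    rcases S.eq_empty_or_nonempty with hS | hS
    · subst hS
      simp at hk
      omega
    · obtain ⟨j0, hj0, hmin⟩ := S.exists_min_image a hS
      set U := S.biUnion (fun j => Finset.Icc (a j) (b j)) with hU
      have hex : ∃ e, a j0 ≤ e ∧ e ∉ U := by
        by_contra hcon
        push Not at hcon
        have hsub : Finset.Icc (a j0) (a j0 + U.card) ⊆ U := by
          intro e he
          exact hcon e (Finset.mem_Icc.mp he).1
        have := Finset.card_le_card hsub
        simp at this
        omega
      classical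
      set e := Nat.find hex with he
      have he1 : a j0 ≤ e := (Nat.find_spec hex).1
      have he2 : e ∉ U := (Nat.find_spec hex).2
      have he3 : ∀ x, a j0 ≤ x → x < e → x ∈ U := by
        intro x hx1 hx2
        by_contra hx
        exact Nat.find_min hex hx2 ⟨hx1, hx⟩
      have hmemU : ∀ j ∈ S, ∀ x, a j ≤ x → x ≤ b j → x ∈ U := by
        intro j hj x h1 h2
        exact Finset.mem_biUnion.mpr ⟨j, hj, Finset.mem_Icc.mpr ⟨h1, h2⟩⟩
      have ha0U : a j0 ∈ U := hmemU j0 hj0 _ le_rfl (hab j0)
      have he4 : a j0 < e := by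
        rcases Nat.lt_or_ge (a j0) e with h1 | h1
        · exact h1
        · have : a j0 = e := le_antisymm he1 h1
          rw [this] at ha0U
          exact absurd ha0U he2
      -- the two parts
      set S1 := S.filter (fun j => b j < e) with hS1
      set S2 := S.filter (fun j => ¬ b j < e) with hS2
      have hcard : S1.card + S2.card = S.card := Finset.card_filter_add_card_filter_not _
      have hdich : ∀ j ∈ S, b j < e ∨ e < a j := by
        intro j hj
        by_contra hcon
        push Not at hcon
        exact he2 (hmemU j hj e hcon.2 hcon.1)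
      have hj0S1 : j0 ∈ S1 := by
        rw [hS1, Finset.mem_filter]
        refine ⟨hj0, ?_⟩
        rcases hdich j0 hj0 with h1 | h1
        · exact h1
        · omega
      have hS1card : S1.card ≤ e - a j0 := by
        have := h (a j0) (e - 1) S1 (by omega) (by
          intro j hj
          rw [hS1, Finset.mem_filter] at hj
          exact ⟨hmin j hj.1, by omega⟩)
        omega
      have hS2lt : S2.card < k := by
        have : 0 < S1.card := Finset.card_pos.mpr ⟨j0, hj0S1⟩
        omega
      have hS2card := ih S2.card hS2lt S2 rfl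
      have hsub : Finset.Ico (a j0) e ∪ S2.biUnion (fun j => Finset.Icc (a j) (b j)) ⊆ U := by
        intro x hx
        rcases Finset.mem_union.mp hx with hx | hx
        · rw [Finset.mem_Ico] at hx
          exact he3 x hx.1 hx.2
        · obtain ⟨j, hj, hx⟩ := Finset.mem_biUnion.mp hx
          rw [hS2, Finset.mem_filter] at hj
          rw [Finset.mem_Icc] at hx
          exact hmemU j hj.1 x hx.1 hx.2
      have hdisj : Disjoint (Finset.Ico (a j0) e)
          (S2.biUnion (fun j => Finset.Icc (a j) (b j))) := by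
        rw [Finset.disjoint_left]
        intro x hx hx'
        obtain ⟨j, hj, hx'⟩ := Finset.mem_biUnion.mp hx'
        rw [hS2, Finset.mem_filter] at hj
        rw [Finset.mem_Icc] at hx'
        rw [Finset.mem_Ico] at hx
        rcases hdich j hj.1 with h1 | h1
        · exact hj.2 h1
        · omega
      have := Finset.card_le_card hsub
      rw [Finset.card_union_of_disjoint hdisj, Nat.card_Ico] at this
      omega
  obtain ⟨f, hf, hf'⟩ := (Finset.all_card_le_biUnion_card_iff_exists_injective _).mp hall
  exact ⟨f, hf, fun j => Finset.mem_Icc.mp (hf' j)⟩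

/-! ### The lower bound: scheduling the robber's coordinate changes -/

section Lower

variable {d n c : ℕ} (p : ℕ → Fin c → Fin d → Fin n)

/-- Number of cops changing coordinate `i` in the move from time `t` to time `t + 1`. -/
def mv (i : Fin d) (t : ℕ) : ℕ := (Finset.univ.filter (fun j => p t j i ≠ p (t + 1) j i)).card

/-- Number of changes of coordinate `i` made by the cops before time `t`. -/
def load (i : Fin d) (t : ℕ) : ℕ := ∑ τ ∈ Finset.range t, mv p i τ

lemma load_succ (i : Fin d) (t : ℕ) : load p i (t + 1) = load p i t + mv p i t := by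
  simp [load, Finset.sum_range_succ]

lemma load_zero (i : Fin d) : load p i 0 = 0 := by simp [load]

lemma load_mono (i : Fin d) : Monotone (load p i) :=
  monotone_nat_of_le_succ (fun t => by rw [load_succ]; omega)

lemma mv_le (i : Fin d) (t : ℕ) : mv p i t ≤ c := by
  unfold mv
  calc _ ≤ (Finset.univ : Finset (Fin c)).card := Finset.card_filter_le _ _
    _ = c := by simp

lemma sum_mv_le (hp : ∀ j, IsWalk (hammingGraph d n) (fun t => p t j)) (t : ℕ) :
    ∑ i, mv p i t ≤ c := by
  have h1 : ∑ i, mv p i t = ∑ j : Fin c, hammingDist (p t j) (p (t + 1) j) := by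
    unfold mv hammingDist
    simp only [Finset.card_filter]
    exact Finset.sum_comm
  rw [h1]
  calc _ ≤ ∑ _j : Fin c, 1 :=
        Finset.sum_le_sum (fun j _ => (isWalk_iff _).mp (hp j) t)
    _ = c := by simp

lemma sum_load_le (hp : ∀ j, IsWalk (hammingGraph d n) (fun t => p t j)) (s k : ℕ) :
    ∑ i, load p i (s + k) ≤ (∑ i, load p i s) + c * k := by
  induction k with
  | zero => simp
  | succ k ih =>
    rw [← Nat.add_assoc]
    simp only [load_succ, Finset.sum_add_distrib]
    have := sum_mv_le p hp (s + k)
    rw [Nat.mul_succ]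
    omega

/-- The jobs: `(i, k)` with `k ≥ 1` such that the `k`-th window of coordinate `i` is closed. -/
def IsJob (x : Fin d × ℕ) : Prop := 1 ≤ x.2 ∧ ∃ τ, (x.2 + 1) * c ≤ load p x.1 (τ + 1)

lemma IsJob.open_ex {x : Fin d × ℕ} (h : IsJob p x) : ∃ τ, x.2 * c ≤ load p x.1 (τ + 1) := by
  obtain ⟨_, τ, hτ⟩ := h
  exact ⟨τ, le_trans (Nat.mul_le_mul_right c (Nat.le_succ _)) hτ⟩

open Classical in
/-- Slots `f` for the jobs: distinct jobs have distinct slots, and the job `(i, k)` is done when the
load of coordinate `i` is at least `k c` and less than `(k + 1) c`. -/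
lemma exists_schedule (hc : 1 ≤ c) (hp : ∀ j, IsWalk (hammingGraph d n) (fun t => p t j)) :
    ∃ f : {x : Fin d × ℕ // IsJob p x} → ℕ, Function.Injective f ∧
      ∀ x, x.1.2 * c ≤ load p x.1.1 (f x + 1) ∧ load p x.1.1 (f x + 1) < (x.1.2 + 1) * c := by
  let a : {x : Fin d × ℕ // IsJob p x} → ℕ := fun x => Nat.find (x.2.open_ex p)
  let b' : {x : Fin d × ℕ // IsJob p x} → ℕ := fun x => Nat.find x.2.2
  have ha1 : ∀ x, x.1.2 * c ≤ load p x.1.1 (a x + 1) := fun x => Nat.find_spec (x.2.open_ex p)
  have ha2 : ∀ x τ, τ < a x → load p x.1.1 (τ + 1) < x.1.2 * c := by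
    intro x τ h
    have := Nat.find_min (x.2.open_ex p) h
    omega
  have hb1 : ∀ x, (x.1.2 + 1) * c ≤ load p x.1.1 (b' x + 1) := fun x => Nat.find_spec x.2.2
  have hb2 : ∀ x τ, τ < b' x → load p x.1.1 (τ + 1) < (x.1.2 + 1) * c := by
    intro x τ h
    have := Nat.find_min x.2.2 h
    omega
  have ha3 : ∀ x s, s ≤ a x → load p x.1.1 s < x.1.2 * c := by
    intro x s hs
    rcases Nat.eq_zero_or_pos s with h0 | h0
    · rw [h0, load_zero]
      exact Nat.mul_pos x.2.1 hc
    · obtain ⟨s', rfl⟩ : ∃ s', s = s' + 1 := ⟨s - 1, by omega⟩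
      exact ha2 x s' hs
  have hab : ∀ x, a x < b' x := by
    intro x
    by_contra hcon
    push Not at hcon
    have h1 := load_mono p x.1.1 (show b' x + 1 ≤ a x + 1 by omega)
    have h2 := ha3 x (a x) le_rfl
    have h3 := hb1 x
    have h4 := mv_le p x.1.1 (a x)
    have h5 := load_succ p x.1.1 (a x)
    rw [Nat.add_mul] at h3
    omega
  obtain ⟨f, hf, hf'⟩ := hall_interval a (fun x => b' x - 1) (fun x => by have := hab x; omega) (by
    intro s t S hst hS
    rcases S.eq_empty_or_nonempty with hS0 | hS0
    · simp [hS0]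
    -- count the jobs coordinate by coordinate
    have hcount : S.card = ∑ i : Fin d, (S.filter (fun x => x.1.1 = i)).card :=
      Finset.card_eq_sum_card_fiberwise (fun x _ => Finset.mem_univ _)
    have hlo : ∀ x ∈ S, load p x.1.1 s < x.1.2 * c := fun x hx => ha3 x s (hS x hx).1
    have hhi : ∀ x ∈ S, (x.1.2 + 1) * c ≤ load p x.1.1 (t + 2) := by
      intro x hx
      refine (hb1 x).trans (load_mono p x.1.1 ?_)
      have := (hS x hx).2
      have := hab x
      omega
    have hfib : ∀ i : Fin d, (S.filter (fun x => x.1.1 = i)).card ≤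
        load p i (t + 2) / c - (load p i s / c + 1) := by
      intro i
      rw [← Nat.card_Ico]
      apply Finset.card_le_card_of_injOn (fun x => x.1.2)
      · intro x hx
        obtain ⟨hxS, hxi⟩ := Finset.mem_filter.mp hx
        have h1 := hlo x hxS
        have h2 := hhi x hxS
        rw [hxi] at h1 h2
        simp only [Finset.coe_Ico, Set.mem_Ico]
        constructor
        · exact (Nat.div_lt_iff_lt_mul (by omega)).mpr h1
        · exact (Nat.le_div_iff_mul_le (by omega)).mpr h2
      · intro x hx y hy hxy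
        obtain ⟨_, hxi⟩ := Finset.mem_filter.mp hx
        obtain ⟨_, hyi⟩ := Finset.mem_filter.mp hy
        exact Subtype.ext (Prod.ext (hxi.trans hyi.symm) hxy)
    have hbound : ∀ i : Fin d, (S.filter (fun x => x.1.1 = i)).card * c + load p i s ≤
        load p i (t + 2) ∧ ((S.filter (fun x => x.1.1 = i)).Nonempty →
        (S.filter (fun x => x.1.1 = i)).card * c + load p i s < load p i (t + 2)) := by
      intro i
      have h1 := hfib i
      set q := (S.filter (fun x => x.1.1 = i)).card with hq
      have hmono := load_mono p i (show s ≤ t + 2 by omega)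
      have key : 1 ≤ q → q * c + load p i s < load p i (t + 2) := by
        intro hq1
        set Y := load p i (t + 2) / c with hY
        set X := load p i s / c with hX
        have h3 : Y * c ≤ load p i (t + 2) := Nat.div_mul_le_self _ _
        have h4 : load p i s < (X + 1) * c := by
          have := Nat.lt_div_mul_add (a := load p i s) (b := c) (by omega)
          rw [Nat.add_mul, Nat.one_mul]
          exact this
        have h5 : q + (X + 1) ≤ Y := by omega
        have h6 : (q + (X + 1)) * c ≤ Y * c := Nat.mul_le_mul_right c h5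
        rw [Nat.add_mul] at h6
        omega
      constructor
      · rcases Nat.eq_zero_or_pos q with h0 | h0
        · rw [h0]
          simpa using hmono
        · exact (key h0).le
      · intro hne
        exact key (Finset.card_pos.mpr hne)
    obtain ⟨x0, hx0⟩ := hS0
    have hlt : ∑ i : Fin d, ((S.filter (fun x => x.1.1 = i)).card * c + load p i s) <
        ∑ i : Fin d, load p i (t + 2) := by
      apply Finset.sum_lt_sum (fun i _ => (hbound i).1)
      exact ⟨x0.1.1, Finset.mem_univ _, (hbound _).2 ⟨x0, by simp [hx0]⟩⟩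
    rw [Finset.sum_add_distrib, ← Finset.sum_mul, ← hcount] at hlt
    have hsum := sum_load_le p hp s (t + 2 - s)
    rw [show s + (t + 2 - s) = t + 2 by omega] at hsum
    have hfin : S.card * c < c * (t + 2 - s) := by omega
    rw [Nat.mul_comm] at hfin
    have := lt_of_mul_lt_mul_left' (a := c) hfin
    omega)
  refine ⟨f, hf, fun x => ⟨?_, ?_⟩⟩
  · exact (ha1 x).trans (load_mono p x.1.1 (by have := (hf' x).1; omega))
  · apply hb2 x (f x)
    have := (hf' x).2
    have := hab x
    omega


/-- The set of values of coordinate `i` used by the cops at times `s, …, s + k` has at most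
`c + load (s + k) - load s` elements. -/
lemma card_used_le (i : Fin d) (s k : ℕ) :
    ((Finset.Icc s (s + k)).biUnion (fun t => Finset.univ.image (fun j => p t j i))).card +
      load p i s ≤ c + load p i (s + k) := by
  induction k with
  | zero =>
    have : ((Finset.Icc s (s + 0)).biUnion (fun t => Finset.univ.image (fun j => p t j i))).card
        ≤ c := by
      simp only [Nat.add_zero, Finset.Icc_self, Finset.singleton_biUnion]
      calc _ ≤ (Finset.univ : Finset (Fin c)).card := Finset.card_image_le
        _ = c := by simp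
    simpa using Nat.add_le_add_right this (load p i s)
  | succ k ih =>
    set B := (Finset.Icc s (s + k)).biUnion (fun t => Finset.univ.image (fun j => p t j i)) with hB
    have hsub : (Finset.Icc s (s + (k + 1))).biUnion
        (fun t => Finset.univ.image (fun j => p t j i)) ⊆
        B ∪ (Finset.univ.filter (fun j => p (s + k) j i ≠ p (s + k + 1) j i)).image
          (fun j => p (s + k + 1) j i) := by
      intro v hv
      obtain ⟨t, ht, hv⟩ := Finset.mem_biUnion.mp hv
      obtain ⟨j, _, hj⟩ := Finset.mem_image.mp hv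
      rw [Finset.mem_Icc] at ht
      rw [Finset.mem_union]
      by_cases hts : t ≤ s + k
      · left
        exact Finset.mem_biUnion.mpr ⟨t, Finset.mem_Icc.mpr ⟨ht.1, hts⟩,
          Finset.mem_image.mpr ⟨j, Finset.mem_univ _, hj⟩⟩
      · have htk : t = s + k + 1 := by omega
        subst htk
        by_cases hmv : p (s + k) j i = p (s + k + 1) j i
        · left
          exact Finset.mem_biUnion.mpr ⟨s + k, Finset.mem_Icc.mpr ⟨by omega, le_rfl⟩,
            Finset.mem_image.mpr ⟨j, Finset.mem_univ _, hmv.trans hj⟩⟩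
        · right
          exact Finset.mem_image.mpr ⟨j, by simpa using hmv, hj⟩
    have h1 := Finset.card_le_card hsub
    have h2 := Finset.card_union_le B ((Finset.univ.filter
      (fun j => p (s + k) j i ≠ p (s + k + 1) j i)).image (fun j => p (s + k + 1) j i))
    have h3 : ((Finset.univ.filter (fun j => p (s + k) j i ≠ p (s + k + 1) j i)).image
        (fun j => p (s + k + 1) j i)).card ≤ mv p i (s + k) := Finset.card_image_le
    have h4 := load_succ p i (s + k)
    rw [← Nat.add_assoc s k 1]
    rw [← Nat.add_assoc s k 1] at h1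
    omega

/-- If `n ≥ 3c`, some value of coordinate `i` is not used by the cops from time `s` on, as long as
the load has increased by less than `2c`. -/
lemma exists_value (hn : 3 * c ≤ n) (hc : 1 ≤ c) (i : Fin d) (s : ℕ) :
    ∃ v : Fin n, ∀ T, s ≤ T → load p i T < load p i s + 2 * c → ∀ j, p T j i ≠ v := by
  by_contra hcon
  push Not at hcon
  choose T hT1 hT2 j hj using hcon
  have hn0 : 0 < n := by omega
  obtain ⟨v0, _, hv0⟩ := Finset.exists_max_image (Finset.univ : Finset (Fin n)) T
    ⟨⟨0, hn0⟩, Finset.mem_univ _⟩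
  have h1 := card_used_le p i s (T v0 - s)
  rw [show s + (T v0 - s) = T v0 by have := hT1 v0; omega] at h1
  have h2 : (Finset.univ : Finset (Fin n)) ⊆
      (Finset.Icc s (T v0)).biUnion (fun t => Finset.univ.image (fun j => p t j i)) := by
    intro v _
    exact Finset.mem_biUnion.mpr ⟨T v, Finset.mem_Icc.mpr ⟨hT1 v, hv0 v (Finset.mem_univ _)⟩,
      Finset.mem_image.mpr ⟨j v, Finset.mem_univ _, hj v⟩⟩
  have h3 := Finset.card_le_card h2
  simp only [Finset.card_univ, Fintype.card_fin] at h3
  have h4 := hT2 v0
  omega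

open Classical in
/-- The index of the window of coordinate `i` the robber is in at time `t`. -/
noncomputable def stage (f : {x : Fin d × ℕ // IsJob p x} → ℕ) (i : Fin d) : ℕ → ℕ
  | 0 => 0
  | t + 1 => if ∃ h : IsJob p (i, stage f i t + 1), f ⟨(i, stage f i t + 1), h⟩ = t then
      stage f i t + 1 else stage f i t

open Classical in
/-- The time at which stage `k` of coordinate `i` starts. -/
noncomputable def start (f : {x : Fin d × ℕ // IsJob p x} → ℕ) (i : Fin d) (k : ℕ) : ℕ :=
  if h : IsJob p (i, k) then f ⟨(i, k), h⟩ + 1 else 0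

variable {p} in
lemma stage_spec {f : {x : Fin d × ℕ // IsJob p x} → ℕ}
    (hf : ∀ x, x.1.2 * c ≤ load p x.1.1 (f x + 1) ∧ load p x.1.1 (f x + 1) < (x.1.2 + 1) * c)
    (i : Fin d) (t : ℕ) :
    (stage p f i t = 0 ∨ ∃ h : IsJob p (i, stage p f i t), f ⟨(i, stage p f i t), h⟩ < t) ∧
      ∀ h : IsJob p (i, stage p f i t + 1), t ≤ f ⟨(i, stage p f i t + 1), h⟩ := by
  induction t with
  | zero => exact ⟨Or.inl rfl, fun h => Nat.zero_le _⟩
  | succ t ih =>
    by_cases hex : ∃ h : IsJob p (i, stage p f i t + 1), f ⟨(i, stage p f i t + 1), h⟩ = t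
    · have hs : stage p f i (t + 1) = stage p f i t + 1 := by
        rw [stage, if_pos hex]
      rw [hs]
      obtain ⟨h, hft⟩ := hex
      refine ⟨Or.inr ⟨h, by omega⟩, ?_⟩
      intro h'
      by_contra hcon
      push Not at hcon
      have h1 := (hf ⟨(i, stage p f i t + 1), h⟩).2
      have h2 := (hf ⟨(i, stage p f i t + 1 + 1), h'⟩).1
      have h3 := load_mono p i (show f ⟨(i, stage p f i t + 1 + 1), h'⟩ + 1 ≤
        f ⟨(i, stage p f i t + 1), h⟩ + 1 by omega)
      simp only at h1 h2
      omega
    · have hs : stage p f i (t + 1) = stage p f i t := by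
        rw [stage, if_neg hex]
      rw [hs]
      refine ⟨?_, ?_⟩
      · rcases ih.1 with h0 | ⟨h, h1⟩
        · exact Or.inl h0
        · exact Or.inr ⟨h, by omega⟩
      · intro h
        have h1 := ih.2 h
        have h2 : f ⟨(i, stage p f i t + 1), h⟩ ≠ t := fun h3 => hex ⟨h, h3⟩
        omega

variable {p} in
/-- The robber's evasion when `n ≥ 3c`. -/
theorem evade (hd : 1 ≤ d) (hn : 3 * c ≤ n) (hn1 : 1 ≤ n)
    (hp : ∀ j, IsWalk (hammingGraph d n) (fun t => p t j)) :
    ∃ r : ℕ → Fin d → Fin n, IsWalk (hammingGraph d n) r ∧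
      ∀ t, ¬ SeenAt (hammingGraph d n) (d - 1) p r t := by
  rcases Nat.eq_zero_or_pos c with hc | hc
  · subst hc
    refine ⟨fun _ _ => ⟨0, hn1⟩, fun t => Or.inl rfl, ?_⟩
    rintro t ⟨j, _⟩
    exact j.elim0
  obtain ⟨f, hinj, hf⟩ := exists_schedule p hc hp
  choose val hval using fun (i : Fin d) (s : ℕ) => exists_value p hn hc i s
  refine ⟨fun t i => val i (start p f i (stage p f i t)), ?_, ?_⟩
  · rw [isWalk_iff]
    intro t
    unfold hammingDist
    rw [Finset.card_le_one]
    have hch : ∀ i ∈ Finset.univ.filter (fun i => val i (start p f i (stage p f i t)) ≠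
        val i (start p f i (stage p f i (t + 1)))), ∃ (k : ℕ) (h : IsJob p (i, k)),
          f ⟨(i, k), h⟩ = t := by
      intro i hi
      by_contra hcon
      push Not at hcon
      have hs : stage p f i (t + 1) = stage p f i t := by
        rw [stage, if_neg]
        rintro ⟨h, h1⟩
        exact hcon _ h h1
      have hi' := (Finset.mem_filter.mp hi).2
      rw [hs] at hi'
      exact hi' rfl
    intro i hi i' hi'
    obtain ⟨k, h, h1⟩ := hch i hi
    obtain ⟨k', h', h1'⟩ := hch i' hi'
    have := hinj (h1.trans h1'.symm)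
    simp only [Subtype.mk.injEq, Prod.mk.injEq] at this
    exact this.1
  · rintro t ⟨j, hj⟩
    -- facts about the current stage
    have key : ∀ i, start p f i (stage p f i t) ≤ t ∧
        load p i (t + 1) < load p i (start p f i (stage p f i t)) + 2 * c := by
      intro i
      obtain ⟨h1, h2⟩ := stage_spec hf i t
      set k := stage p f i t with hk
      have hstart : start p f i k ≤ t ∧ k * c ≤ load p i (start p f i k) := by
        rcases h1 with h0 | ⟨h, h3⟩
        · have hnj : ¬ IsJob p (i, k) := by
            rintro ⟨h4, _⟩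
            simp only at h4
            omega
          unfold start
          rw [dif_neg hnj, h0]
          simp
        · unfold start
          rw [dif_pos h]
          exact ⟨h3, (hf ⟨(i, k), h⟩).1⟩
      refine ⟨hstart.1, ?_⟩
      have hend : load p i (t + 1) < (k + 2) * c := by
        by_cases h : IsJob p (i, k + 1)
        · exact lt_of_le_of_lt (load_mono p i (Nat.succ_le_succ (h2 h)))
            (hf ⟨(i, k + 1), h⟩).2
        · by_contra hcon
          push Not at hcon
          exact h ⟨Nat.succ_le_succ (Nat.zero_le _), t, hcon⟩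
      have h5 := hstart.2
      have h6 : (k + 2) * c = k * c + 2 * c := by ring
      omega
    have hmono : ∀ i, load p i t ≤ load p i (t + 1) := fun i => load_mono p i (Nat.le_succ t)
    rcases hj with hj | hj
    · obtain ⟨i, hi⟩ := (dist_le_iff hd _ _).mp hj
      exact hval i _ t (key i).1 (lt_of_le_of_lt (hmono i) (key i).2) j hi
    · obtain ⟨i, hi⟩ := (dist_le_iff hd _ _).mp hj
      exact hval i _ (t + 1) (by have := (key i).1; omega) (key i).2 j hi

end Lower


/-! ### The upper bound -/

section Upper

/-- Second coordinate of cop `j` at time `t`. -/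
def rot (c t j : ℕ) : ℕ :=
  if t % 3 = 0 then j else if t % 3 = 1 then c + j else if j = 0 then c else 2 * c + j - 1

/-- The cops' play: the second coordinates rotate through three groups of values covering
everything, and cop `0` slowly sweeps the first coordinate. -/
def play (d c : ℕ) {n : ℕ} (hn : 0 < n) (t : ℕ) (j : Fin c) : Fin d → Fin n := fun i =>
  if i.val = 1 then ⟨min (rot c t j) (n - 1), by omega⟩
  else if i.val = 0 ∧ j.val = 0 then ⟨((t + 1) / 3) % n, Nat.mod_lt _ hn⟩
  else ⟨0, hn⟩

lemma play_isWalk (d c : ℕ) {n : ℕ} (hn : 0 < n) (j : Fin c) :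
    IsWalk (hammingGraph d n) (fun t => play d c hn t j) := by
  rw [isWalk_iff]
  intro t
  unfold hammingDist
  rw [Finset.card_le_one]
  by_cases ht : t % 3 = 1 ∧ j.val = 0
  · have h0 : ∀ i ∈ Finset.univ.filter
        (fun i => play d c hn t j i ≠ play d c hn (t + 1) j i), i.val = 0 := by
      intro i hi
      have hi := (Finset.mem_filter.mp hi).2
      by_contra hi0
      apply hi
      unfold play
      by_cases hi1 : i.val = 1
      · simp only [if_pos hi1, Fin.mk.injEq]
        have h1 : rot c t j = c := by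
          unfold rot
          rw [if_neg (by omega), if_pos ht.1, ht.2, Nat.add_zero]
        have h2 : rot c (t + 1) j = c := by
          unfold rot
          rw [if_neg (by omega), if_neg (by omega), if_pos ht.2]
        rw [h1, h2]
      · simp [hi1, hi0]
    intro i hi i' hi'
    exact Fin.ext ((h0 i hi).trans (h0 i' hi').symm)
  · have h1 : ∀ i ∈ Finset.univ.filter
        (fun i => play d c hn t j i ≠ play d c hn (t + 1) j i), i.val = 1 := by
      intro i hi
      have hi := (Finset.mem_filter.mp hi).2
      by_contra hi1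
      apply hi
      unfold play
      by_cases hi0 : i.val = 0 ∧ j.val = 0
      · simp only [if_neg hi1, if_pos hi0, Fin.mk.injEq]
        have : (t + 1) / 3 = (t + 1 + 1) / 3 := by
          have : t % 3 ≠ 1 := fun h => ht ⟨h, hi0.2⟩
          omega
        rw [this]
      · simp only [if_neg hi1, if_neg hi0]
    intro i hi i' hi'
    exact Fin.ext ((h1 i hi).trans (h1 i' hi').symm)

/-- Three consecutive times cover every value of the second coordinate. -/
lemma rot_cover {c n : ℕ} (hn : n + 1 ≤ 3 * c) (t v : ℕ) (hv : v < n) :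
    ∃ j : ℕ, j < c ∧ (rot c t j = v ∨ rot c (t + 1) j = v ∨ rot c (t + 2) j = v) := by
  -- residue of the group of `v`
  have hgrp : ∀ s : ℕ, (s % 3 = 0 → v < c → ∃ j, j < c ∧ rot c s j = v) ∧
      (s % 3 = 1 → c ≤ v → v < 2 * c → ∃ j, j < c ∧ rot c s j = v) ∧
      (s % 3 = 2 → 2 * c ≤ v → ∃ j, j < c ∧ rot c s j = v) := by
    intro s
    refine ⟨fun hs hvc => ⟨v, hvc, ?_⟩, fun hs h1 h2 => ⟨v - c, by omega, ?_⟩,
      fun hs h1 => ⟨v + 1 - 2 * c, by omega, ?_⟩⟩
    · unfold rot
      rw [if_pos hs]
    · unfold rot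
      rw [if_neg (by omega), if_pos hs]
      omega
    · unfold rot
      rw [if_neg (by omega), if_neg (by omega), if_neg (by omega)]
      omega
  have h0 := hgrp t
  have h1 := hgrp (t + 1)
  have h2 := hgrp (t + 2)
  have hres : t % 3 = 0 ∨ t % 3 = 1 ∨ t % 3 = 2 := by omega
  rcases Nat.lt_or_ge v c with hvc | hvc
  · rcases hres with h | h | h
    · obtain ⟨j, hj, hj'⟩ := h0.1 h hvc
      exact ⟨j, hj, Or.inl hj'⟩
    · obtain ⟨j, hj, hj'⟩ := h2.1 (by omega) hvc
      exact ⟨j, hj, Or.inr (Or.inr hj')⟩
    · obtain ⟨j, hj, hj'⟩ := h1.1 (by omega) hvc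
      exact ⟨j, hj, Or.inr (Or.inl hj')⟩
  · rcases Nat.lt_or_ge v (2 * c) with hv2 | hv2
    · rcases hres with h | h | h
      · obtain ⟨j, hj, hj'⟩ := h1.2.1 (by omega) hvc hv2
        exact ⟨j, hj, Or.inr (Or.inl hj')⟩
      · obtain ⟨j, hj, hj'⟩ := h0.2.1 h hvc hv2
        exact ⟨j, hj, Or.inl hj'⟩
      · obtain ⟨j, hj, hj'⟩ := h2.2.1 (by omega) hvc hv2
        exact ⟨j, hj, Or.inr (Or.inr hj')⟩
    · rcases hres with h | h | h
      · obtain ⟨j, hj, hj'⟩ := h2.2.2 (by omega) hv2
        exact ⟨j, hj, Or.inr (Or.inr hj')⟩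
      · obtain ⟨j, hj, hj'⟩ := h1.2.2 (by omega) hv2
        exact ⟨j, hj, Or.inr (Or.inl hj')⟩
      · obtain ⟨j, hj, hj'⟩ := h0.2.2 h hv2
        exact ⟨j, hj, Or.inl hj'⟩

/-- The cops see the robber when `n ≤ 3c - 1`. -/
theorem copsCanSee {d n c : ℕ} (hd : 2 ≤ d) (hn : 1 ≤ n) (hc : n + 1 ≤ 3 * c) :
    CopsCanSee (hammingGraph d n) (d - 1) c := by
  refine ⟨play d c hn, play_isWalk d c hn, 6 * n + 6, ?_⟩
  intro r hr
  by_contra hcon
  push Not at hcon
  rw [isWalk_iff] at hr
  have hns : ∀ t ≤ 6 * n + 6, ∀ (j : Fin c) (i : Fin d),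
      play d c hn t j i ≠ r t i ∧ play d c hn (t + 1) j i ≠ r t i := by
    intro t ht j i
    constructor
    · intro h
      exact hcon t ht ⟨j, Or.inl ((dist_le_iff (by omega) _ _).mpr ⟨i, h⟩)⟩
    · intro h
      exact hcon t ht ⟨j, Or.inr ((dist_le_iff (by omega) _ _).mpr ⟨i, h⟩)⟩
  let i0 : Fin d := ⟨0, by omega⟩
  let i1 : Fin d := ⟨1, by omega⟩
  have hplay1 : ∀ t (j : Fin c) (v : Fin n), rot c t j = v.val → play d c hn t j i1 = v := by
    intro t j v h
    apply Fin.ext
    simp only [play, i1, if_true, h]
    have := v.isLt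
    omega
  -- the robber must change the second coordinate in each round
  have hmove : ∀ t < 6 * n + 6, r t i1 ≠ r (t + 1) i1 := by
    intro t ht heq
    obtain ⟨j, hj, h⟩ := rot_cover hc t (r t i1).val (r t i1).isLt
    rcases h with h | h | h
    · exact (hns t (by omega) ⟨j, hj⟩ i1).1 (hplay1 t ⟨j, hj⟩ _ h)
    · exact (hns t (by omega) ⟨j, hj⟩ i1).2 (hplay1 (t + 1) ⟨j, hj⟩ _ h)
    · have h2 := (hns (t + 1) (by omega) ⟨j, hj⟩ i1).2
      rw [← heq] at h2
      exact h2 (hplay1 (t + 2) ⟨j, hj⟩ _ h)
  -- hence the first coordinate never changes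
  have hstay : ∀ t ≤ 6 * n + 6, r t i0 = r 0 i0 := by
    intro t
    induction t with
    | zero => intro _; rfl
    | succ t ih =>
      intro ht
      rw [← ih (by omega)]
      by_contra hne
      have h1 := hr t
      unfold hammingDist at h1
      rw [Finset.card_le_one] at h1
      have := h1 i0 (by simpa using fun h => hne h.symm) i1 (by simpa using hmove t (by omega))
      simp [i0, i1] at this
  -- and cop `0` finds it
  have hc0 : 0 < c := by omega
  set q : ℕ := (r 0 i0).val + n - 1 with hq
  have hlt := (r 0 i0).isLt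
  have hfin := (hns (3 * q + 2) (by omega) ⟨0, hc0⟩ i0).1
  apply hfin
  rw [hstay _ (by omega)]
  apply Fin.ext
  have hdiv : (3 * q + 2 + 1) / 3 = (r 0 i0).val + n := by omega
  simp only [play, i0]
  rw [if_neg (by norm_num), if_pos (by simp)]
  simp only [hdiv, Nat.add_mod_right]
  exact Nat.mod_eq_of_lt hlt

end Upper

/-! ### The exact value and the answer to Q1 -/

lemma evade_not {d n c : ℕ} (hd : 1 ≤ d) (hn1 : 1 ≤ n) (hn : 3 * c ≤ n) :
    ¬ CopsCanSee (hammingGraph d n) (d - 1) c := by
  rintro ⟨p, hp, T, hT⟩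
  obtain ⟨r, hr, hns⟩ := evade (p := p) hd hn hn1 hp
  obtain ⟨t, _, ht⟩ := hT r hr
  exact hns t ht

theorem searchNumber_eq {d n : ℕ} (hd : 2 ≤ d) (hn : 1 ≤ n) :
    searchNumber (hammingGraph d n) (d - 1) = n / 3 + 1 := by
  unfold searchNumber
  apply le_antisymm
  · exact Nat.sInf_le (copsCanSee hd hn (by omega))
  · apply le_csInf ⟨n / 3 + 1, copsCanSee hd hn (by omega)⟩
    intro c hc
    by_contra hlt
    exact evade_not (by omega) hn (by omega) hc

lemma tendsto_ratio (d : ℕ) (hd : 2 ≤ d) :
    Tendsto (fun n : ℕ => (searchNumber (hammingGraph d n) (d - 1) : ℝ) * (d + 1) / n) atTop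
      (𝓝 (((d : ℝ) + 1) / 3)) := by
  have h1 : Tendsto (fun n : ℕ => (((n / 3 + 1 : ℕ) : ℝ)) / n) atTop (𝓝 (1 / 3)) := by
    have hlow : ∀ᶠ n : ℕ in atTop, (1 / 3 : ℝ) ≤ (((n / 3 + 1 : ℕ) : ℝ)) / n := by
      filter_upwards [eventually_ge_atTop 1] with n hn
      have hn' : (0 : ℝ) < n := by exact_mod_cast hn
      rw [le_div_iff₀ hn']
      have : n ≤ 3 * (n / 3 + 1) := by omega
      have : (n : ℝ) ≤ 3 * ((n / 3 + 1 : ℕ) : ℝ) := by exact_mod_cast this
      linarith
    have hup : ∀ᶠ n : ℕ in atTop, (((n / 3 + 1 : ℕ) : ℝ)) / n ≤ 1 / 3 + 1 / (n : ℝ) := by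
      filter_upwards [eventually_ge_atTop 1] with n hn
      have hn' : (0 : ℝ) < n := by exact_mod_cast hn
      rw [div_le_iff₀ hn']
      have : 3 * (n / 3 + 1) ≤ n + 3 := by omega
      have : 3 * ((n / 3 + 1 : ℕ) : ℝ) ≤ n + 3 := by exact_mod_cast this
      have h3 : (1 / 3 + 1 / (n : ℝ)) * n = n / 3 + 1 := by
        field_simp
      rw [h3]
      linarith
    have hlim : Tendsto (fun n : ℕ => (1 / 3 : ℝ) + 1 / (n : ℝ)) atTop (𝓝 (1 / 3)) := by
      have := (tendsto_const_nhds (x := (1 / 3 : ℝ))).add (tendsto_one_div_atTop_nhds_zero_nat (𝕜 := ℝ))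
      simpa using this
    exact tendsto_of_tendsto_of_tendsto_of_le_of_le' tendsto_const_nhds hlim hlow hup
  have h2 := h1.mul_const ((d : ℝ) + 1)
  have h3 : (1 / 3 : ℝ) * ((d : ℝ) + 1) = ((d : ℝ) + 1) / 3 := by ring
  rw [h3] at h2
  refine h2.congr' ?_
  filter_upwards [eventually_ge_atTop 1] with n hn
  rw [searchNumber_eq hd hn]
  ring

end Pool.Agent.H22.Fb85c6a
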